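import Pool.Agent.Helper98.DE.St

/-! Project DE, module HIG: the sum of the degrees of `k` vertices. -/

set_option autoImplicit false

namespace Pool.Agent.Helper21.DE

open Pool.Agent.Helper98.DE
open Pool.Agent.Helper51.AJ (IsMinor Planar Apex ExMinor Con Tch)
open Pool.Agent.Helper12.NK (rst Kc cnt)
open Pool.Agent.Helper12.MA (dl Srv)

open Finset

private lemma minor_mono {W V : Type} {K : SimpleGraph W} {H H' : SimpleGraph V} (h : H ≤ H')
    (hm : IsMinor K H) : IsMinor K H' := by
  obtain ⟨φ, h1, h2, h3⟩ := hm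
  refine ⟨φ, fun w => ?_, h2, fun w w' hw => ?_⟩
  · exact (h1 w).mono fun a b hab => h hab
  · obtain ⟨x, hx, y, hy, hxy⟩ := h3 w w' hw
    exact ⟨x, hx, y, hy, h hxy⟩

private lemma planar_mono {V : Type} {H H' : SimpleGraph V} (h : H ≤ H') (hp : Planar H') : Planar H :=
  ⟨fun k => hp.1 (minor_mono h k), fun k => hp.2 (minor_mono h k)⟩

open Classical in
/-- the number of neighbours in `A` -/
private noncomputable def fa {V : Type} (P : SimpleGraph V) (A : Finset V) (a : V) : ℕ :=
  (A.filter fun b => P.Adj a b).card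

private lemma pc_eq {V : Type} (P : SimpleGraph V) (A : Finset V) : pc P A = ∑ a ∈ A, fa P A a := rfl

open Classical in
private lemma fa_split {V : Type} (P : SimpleGraph V) {U Z : Finset V} (h : Z ⊆ U) (a : V) :
    fa P U a = fa P Z a + fa P (U \ Z) a := by
  unfold fa
  rw [← Finset.card_union_of_disjoint, ← Finset.filter_union, Finset.union_sdiff_of_subset h]
  exact Finset.disjoint_filter_filter Finset.disjoint_sdiff

open Classical in
private lemma fa_symm {V : Type} (P : SimpleGraph V) (A B : Finset V) :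
    ∑ a ∈ A, fa P B a = ∑ b ∈ B, fa P A b := by
  unfold fa
  simp only [Finset.card_filter]
  rw [Finset.sum_comm]
  refine Finset.sum_congr rfl fun b _ => Finset.sum_congr rfl fun a _ => ?_
  simp only [P.adj_comm]

open Classical in
private lemma two_sum {V : Type} (P : SimpleGraph V) {U Z : Finset V} (h : Z ⊆ U) :
    2 * ∑ z ∈ Z, fa P U z ≤ pc P U + pc P Z := by
  have e1 : ∑ z ∈ Z, fa P U z = pc P Z + ∑ z ∈ Z, fa P (U \ Z) z := by
    rw [pc_eq, ← Finset.sum_add_distrib]
    exact Finset.sum_congr rfl fun a _ => fa_split P h a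
  have e2 : pc P U = ∑ a ∈ Z, fa P U a + ∑ a ∈ U \ Z, fa P U a := by
    rw [pc_eq, ← Finset.sum_sdiff h, add_comm]
  have e3 : ∑ z ∈ Z, fa P (U \ Z) z ≤ ∑ a ∈ U \ Z, fa P U a := by
    rw [fa_symm P Z (U \ Z)]
    exact Finset.sum_le_sum fun a _ => by rw [fa_split P h a]; omega
  omega

open Classical in
private lemma dg_le {V : Type} [Fintype V] (G : SimpleGraph V) (s x y : V) (z : V) :
    dg G z ≤ fa (dl G x y) (Finset.univ.erase s) z + 1 + (if z = x then 1 else 0) + (if z = y then 1 else 0) := by
  have hsub : G.neighborSet z ⊆ (((((Finset.univ.erase s).filter fun b => (dl G x y).Adj z b) ∪ {s}) ∪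
      (if z = x then {y} else ∅)) ∪ (if z = y then {x} else ∅) : Finset V) := by
    intro b hb
    have hb' : G.Adj z b := hb
    simp only [Finset.coe_union, Set.mem_union, Finset.mem_coe, Finset.mem_filter, Finset.mem_erase,
      Finset.mem_univ, and_true, Finset.mem_singleton]
    by_cases h1 : b = s
    · exact Or.inl (Or.inl (Or.inr h1))
    by_cases h2 : z = x ∧ b = y
    · refine Or.inl (Or.inr ?_)
      rw [if_pos h2.1, h2.2]
      exact Finset.mem_singleton_self _
    by_cases h3 : z = y ∧ b = x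
    · refine Or.inr ?_
      rw [if_pos h3.1, h3.2]
      exact Finset.mem_singleton_self _
    · exact Or.inl (Or.inl (Or.inl ⟨h1, hb', h2, h3⟩))
  have h1 : dg G z ≤ (((((Finset.univ.erase s).filter fun b => (dl G x y).Adj z b) ∪ {s}) ∪
      (if z = x then {y} else ∅)) ∪ (if z = y then {x} else ∅) : Finset V).card := by
    unfold dg
    rw [← Set.ncard_coe_finset]
    exact Set.ncard_le_ncard hsub (Finset.finite_toSet _)
  refine h1.trans ?_
  refine (Finset.card_union_le _ _).trans ?_
  refine (Nat.add_le_add_right (Finset.card_union_le _ _) _).trans ?_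
  refine (Nat.add_le_add_right (Nat.add_le_add_right (Finset.card_union_le _ _) _) _).trans ?_
  have e1 : ((if z = x then {y} else ∅ : Finset V)).card ≤ if z = x then 1 else 0 := by
    split_ifs <;> simp
  have e2 : ((if z = y then {x} else ∅ : Finset V)).card ≤ if z = y then 1 else 0 := by
    split_ifs <;> simp
  have e3 : ({s} : Finset V).card = 1 := Finset.card_singleton s
  unfold fa
  omega

open Classical in
private lemma sum_dg {V : Type} [Fintype V] (G : SimpleGraph V) (s x y : V) (Z : Finset V) :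
    ∑ z ∈ Z, dg G z ≤ ∑ z ∈ Z, fa (dl G x y) (Finset.univ.erase s) z + Z.card + 2 := by
  have h := Finset.sum_le_sum fun z (_ : z ∈ Z) => dg_le G s x y z
  refine h.trans ?_
  rw [Finset.sum_add_distrib, Finset.sum_add_distrib, Finset.sum_add_distrib, Finset.sum_const, smul_eq_mul,
    mul_one]
  have e : ∀ w : V, ∑ z ∈ Z, (if z = w then 1 else 0) ≤ 1 := by
    intro w
    rw [Finset.sum_ite_eq']
    split_ifs <;> simp
  have e1 := e x
  have e2 := e y
  omega

theorem hHIG : StPCI -> StPLB -> StTFB -> StHIG := by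
  intro _h1 hPLB hTFB V _ G hn s x y hs Z hsZ hZ
  classical
  obtain ⟨_, _, hpl⟩ := hs
  have hZU : Z ⊆ Finset.univ.erase s := fun z hz =>
    Finset.mem_erase.2 ⟨fun h => hsZ (h ▸ hz), Finset.mem_univ z⟩
  have hUc : (Finset.univ.erase s).card = Fintype.card V - 1 := by
    rw [Finset.card_erase_of_mem (Finset.mem_univ s), Finset.card_univ]
  have hU3 : 3 ≤ (Finset.univ.erase s).card := by omega
  have hcoe : (((Finset.univ.erase s : Finset V)) : Set V) = {s}ᶜ := by
    ext z
    simp
  have hpU : Planar (rst (dl G x y) ((Finset.univ.erase s : Finset V) : Set V)) := by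
    rw [hcoe]; exact hpl
  have hpZ : Planar (rst (dl G x y) (Z : Set V)) := by
    refine planar_mono ?_ hpU
    intro a b hab
    exact ⟨hab.1, hZU hab.2.1, hZU hab.2.2⟩
  have h2 := two_sum (dl G x y) hZU
  have h3 := sum_dg G s x y Z
  refine ⟨?_, fun ht => ?_⟩
  · have a1 := hPLB V (dl G x y) _ hU3 hpU
    have a2 := hPLB V (dl G x y) _ hZ hpZ
    rw [hUc] at a1
    omega
  · have ht' : ∀ U : Set V, TFr (dl G x y) U := by
      intro U a _ b _ c _ hab hbc hac
      exact ht a trivial b trivial c trivial hab.1 hbc.1 hac.1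
    have a1 := hTFB V (dl G x y) _ hU3 hpU (ht' _)
    have a2 := hTFB V (dl G x y) _ hZ hpZ (ht' _)
    rw [hUc] at a1
    omega

end Pool.Agent.Helper21.DE
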